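import Pool.Agent.Helper38_LDP.Stmts

/-! Squad LDP, module HIL: Bezout by Hilbert functions. -/

namespace Pool.Agent.LDP.H68

open MvPolynomial

theorem hil : HilStmt := by
  intro N L _ P Q k D e T c hQp hQh hPh hQP hQ hP h hh hhP hhQ
  -- the quotient spaces
  set S : ℕ → Submodule L (MvPolynomial (Fin N) L) :=
    fun t => homogeneousSubmodule (Fin N) L t with hS
  have fin : ∀ t, Module.Finite L (S t) := fun t =>
    Module.Finite.iff_fg.mpr (homogeneousSubmodule_fg (σ := Fin N) (R := L) t)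
  let Qt : ∀ t, Submodule L (S t) := fun t => (Q.restrictScalars L).comap (S t).subtype
  let Pt : ∀ t, Submodule L (S t) := fun t => (P.restrictScalars L).comap (S t).subtype
  have hmemQ : ∀ t (x : S t), x ∈ Qt t ↔ (x : MvPolynomial (Fin N) L) ∈ Q := fun t x => Iff.rfl
  have hmemP : ∀ t (x : S t), x ∈ Pt t ↔ (x : MvPolynomial (Fin N) L) ∈ P := fun t x => Iff.rfl
  have hle : ∀ t, Qt t ≤ Pt t := fun t x hx => hQP hx
  -- multiplication by h
  have hmul : ∀ t, ∀ v ∈ S t, h * v ∈ S (t + e) := by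
    intro t v hv
    rw [hS] at hv ⊢
    rw [mem_homogeneousSubmodule] at hv hh ⊢
    rw [add_comm]
    exact hh.mul hv
  let μ : ∀ t, S t →ₗ[L] S (t + e) := fun t =>
    ((LinearMap.mulLeft L h).comp (S t).subtype).codRestrict (S (t + e)) fun v => hmul t v v.2
  have hμ : ∀ t (v : S t), ((μ t v : S (t + e)) : MvPolynomial (Fin N) L) = h * v := fun t v => rfl
  have key : ∀ t ≥ T, (k : ℤ) * t + c + D ≤ k * (t + e : ℕ) + c ∧ (D = k * e →
      ∀ p ∈ S (t + e), p ∈ P → ∃ v ∈ S t, p - h * v ∈ Q) := by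
    intro t ht
    have hQt : Qt t ≤ (Qt (t + e)).comap (μ t) := by
      intro v hv
      rw [Submodule.mem_comap, hmemQ, hμ]
      exact Q.mul_mem_left _ hv
    let ν : (S t ⧸ Qt t) →ₗ[L] (S (t + e) ⧸ Qt (t + e)) := (Qt t).mapQ (Qt (t + e)) (μ t) hQt
    have hν : Function.Injective ν := by
      rw [← LinearMap.ker_eq_bot, LinearMap.ker_eq_bot']
      intro x hx
      obtain ⟨v, rfl⟩ := Submodule.Quotient.mk_surjective _ x
      have h1 : ν (Submodule.Quotient.mk v) = Submodule.Quotient.mk (μ t v) := rfl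
      rw [h1, Submodule.Quotient.mk_eq_zero, hmemQ, hμ] at hx
      rw [Submodule.Quotient.mk_eq_zero, hmemQ]
      exact (hQp.mem_or_mem hx).resolve_left hhQ
    let ρ : (S (t + e) ⧸ Qt (t + e)) →ₗ[L] (S (t + e) ⧸ Pt (t + e)) :=
      (Qt (t + e)).mapQ (Pt (t + e)) LinearMap.id (hle _)
    have hρ : Function.Surjective ρ := by
      intro y
      obtain ⟨v, rfl⟩ := Submodule.Quotient.mk_surjective _ y
      exact ⟨Submodule.Quotient.mk v, rfl⟩
    have hrange : LinearMap.range ν ≤ LinearMap.ker ρ := by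
      rintro _ ⟨x, rfl⟩
      obtain ⟨v, rfl⟩ := Submodule.Quotient.mk_surjective _ x
      rw [LinearMap.mem_ker]
      have h1 : ρ (ν (Submodule.Quotient.mk v)) = Submodule.Quotient.mk (μ t v) := rfl
      rw [h1, Submodule.Quotient.mk_eq_zero, hmemP, hμ]
      exact P.mul_mem_right _ hhP
    have d1 : Module.finrank L (LinearMap.range ν) = hilb Q t :=
      LinearMap.finrank_range_of_inj hν
    have d2 : Module.finrank L (LinearMap.range ρ) + Module.finrank L (LinearMap.ker ρ) =
        hilb Q (t + e) := LinearMap.finrank_range_add_finrank_ker ρ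
    have d3 : Module.finrank L (LinearMap.range ρ) = hilb P (t + e) := by
      rw [LinearMap.range_eq_top.mpr hρ, finrank_top]
      rfl
    have d4 : Module.finrank L (LinearMap.range ν) ≤ Module.finrank L (LinearMap.ker ρ) :=
      Submodule.finrank_mono hrange
    have e1 := hQ t ht
    have e2 := hQ (t + e) (by omega)
    have e3 := hP (t + e) (by omega)
    have d5 : (hilb Q t : ℤ) + D ≤ hilb Q (t + e) := by
      have : hilb Q t + D ≤ hilb Q (t + e) := by omega
      exact_mod_cast this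
    refine ⟨by rw [e1, e2] at d5; exact d5, ?_⟩
    intro hD p hp hpP
    have d6 : Module.finrank L (LinearMap.range ν) = Module.finrank L (LinearMap.ker ρ) := by
      have hcast : ((k * e : ℕ) : ℤ) = (k : ℤ) * e := by push_cast; ring
      have h7 : (hilb Q (t + e) : ℤ) = hilb Q t + D := by
        rw [e1, e2, hD]
        push_cast
        ring
      have h8 : hilb Q (t + e) = hilb Q t + D := by exact_mod_cast h7
      omega
    have d7 : LinearMap.range ν = LinearMap.ker ρ := Submodule.eq_of_le_of_finrank_eq hrange d6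
    have h9 : (Submodule.Quotient.mk ⟨p, hp⟩ : S (t + e) ⧸ Qt (t + e)) ∈ LinearMap.ker ρ := by
      rw [LinearMap.mem_ker]
      change (Submodule.Quotient.mk ⟨p, hp⟩ : S (t + e) ⧸ Pt (t + e)) = 0
      rw [Submodule.Quotient.mk_eq_zero]
      exact hpP
    rw [← d7] at h9
    obtain ⟨x, hx⟩ := h9
    obtain ⟨v, rfl⟩ := Submodule.Quotient.mk_surjective _ x
    have h10 : ν (Submodule.Quotient.mk v) = Submodule.Quotient.mk (μ t v) := rfl
    rw [h10] at hx
    have h11 := (Submodule.Quotient.eq _).mp hx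
    refine ⟨v, v.2, ?_⟩
    have h12 : (h * v - p : MvPolynomial (Fin N) L) ∈ Q := h11
    have := Q.neg_mem h12
    rwa [neg_sub] at this
  refine ⟨?_, fun hD t ht p hp hpP => (key t ht).2 hD p hp hpP⟩
  have := (key T le_rfl).1
  push_cast at this
  have h1 : (D : ℤ) ≤ k * e := by linarith [mul_add (k : ℤ) T e]
  exact_mod_cast h1

end Pool.Agent.LDP.H68
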