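import Pool.Agent.Helper38_LDP.Stmts

/-! Squad LDP, module IRR: irreducibility of the special family. -/

namespace Pool.Agent.LDP.H68

open Polynomial
open scoped Polynomial.Bivariate

/-- the reversed and swapped polynomial -/
theorem eis (d : ℕ) (hd : 3 ≤ d) (L : Type) [Field L] (lam : L) :
    Irreducible (C (1 + X ^ d) * X ^ d + C (X ^ d) * X + C (X - C lam * X ^ d) : L[X][X]) := by
  set E : L[X][X] := C (1 + X ^ d) * X ^ d + C (X ^ d) * X + C (X - C lam * X ^ d) with hE
  have h1d : (1 + X ^ d : L[X]) ≠ 0 := by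
    intro h
    have := congrArg (fun p => coeff p 0) h
    simp [coeff_X_pow, show (0 : ℕ) ≠ d by omega] at this
  have hcoeff : ∀ i, E.coeff i = (if i = d then (1 + X ^ d : L[X]) else 0) +
      (if i = 1 then (X ^ d : L[X]) else 0) + (if i = 0 then (X - C lam * X ^ d : L[X]) else 0) := by
    intro i
    rw [hE]
    simp only [coeff_add, coeff_C_mul, coeff_X_pow, coeff_X, coeff_C, mul_ite, mul_one, mul_zero,
      eq_comm (a := (1 : ℕ))]
  have hdeg : E.natDegree = d := by
    apply natDegree_eq_of_le_of_coeff_ne_zero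
    · rw [natDegree_le_iff_coeff_eq_zero]
      intro n hn
      rw [hcoeff, if_neg (by omega), if_neg (by omega), if_neg (by omega)]
      simp
    · rw [hcoeff, if_pos rfl, if_neg (by omega), if_neg (by omega)]
      simpa using h1d
  have hlead : E.leadingCoeff = 1 + X ^ d := by
    rw [leadingCoeff, hdeg, hcoeff, if_pos rfl, if_neg (by omega), if_neg (by omega)]
    simp
  have hprime : (Ideal.span {(X : L[X])}).IsPrime :=
    (Ideal.span_singleton_prime X_ne_zero).mpr prime_X
  have hne : E ≠ 0 := fun h => by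
    rw [h] at hlead; simp at hlead; exact h1d hlead.symm
  refine irreducible_of_eisenstein_criterion (P := Ideal.span {(X : L[X])}) hprime ?_ ?_ ?_ ?_ ?_
  · rw [hlead, Ideal.mem_span_singleton, X_dvd_iff]
    simp [coeff_X_pow, show (0 : ℕ) ≠ d by omega]
  · intro n hn
    rw [degree_eq_natDegree hne, hdeg, Nat.cast_lt] at hn
    rw [hcoeff, if_neg (by omega), Ideal.mem_span_singleton, X_dvd_iff]
    split_ifs <;> simp [coeff_X_pow, show (0 : ℕ) ≠ d by omega]
  · rw [degree_eq_natDegree hne, hdeg]
    exact_mod_cast (by omega : 0 < d)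
  · rw [hcoeff, if_neg (by omega), if_neg (by omega), if_pos rfl, Ideal.span_singleton_pow,
      Ideal.mem_span_singleton, X_pow_dvd_iff]
    intro h
    have := h 1 (by norm_num)
    simp [coeff_X_pow, show (1 : ℕ) ≠ d by omega] at this
  · intro r hr
    rw [C_dvd_iff_dvd_coeff] at hr
    have e1 := hr d
    have e2 := hr 1
    rw [hcoeff, if_pos rfl, if_neg (by omega), if_neg (by omega), add_zero, add_zero] at e1
    rw [hcoeff, if_neg (by omega), if_pos rfl, if_neg (by omega), zero_add, add_zero] at e2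
    have e3 : r ∣ 1 := by
      have := dvd_sub e1 e2
      simpa using this
    exact isUnit_of_dvd_one e3

/-- if the reverse polynomial is irreducible and the constant coefficient is nonzero then the
polynomial is irreducible -/
theorem irreducible_of_reverse {R : Type} [CommRing R] [IsDomain R] (f : R[X])
    (h0 : f.coeff 0 ≠ 0) (hf : Irreducible f.reverse) : Irreducible f := by
  have aux : ∀ g : R[X], g.coeff 0 ≠ 0 → IsUnit g.reverse → IsUnit g := by
    intro g hg hu
    obtain ⟨c, hc, hcg⟩ := Polynomial.isUnit_iff.mp hu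
    have h1 : g.reverse.natDegree = 0 := by rw [← hcg, natDegree_C]
    rw [reverse_natDegree, natTrailingDegree_eq_zero_of_constantCoeff_ne_zero hg] at h1
    obtain ⟨a, rfl⟩ : ∃ a, g = C a := ⟨_, eq_C_of_natDegree_eq_zero (by simpa using h1)⟩
    rw [reverse_C] at hu
    exact hu
  constructor
  · intro hu
    obtain ⟨c, hc, rfl⟩ := Polynomial.isUnit_iff.mp hu
    rw [reverse_C] at hf
    exact hf.not_isUnit hu
  · intro g h hgh
    have hc0 : g.coeff 0 * h.coeff 0 ≠ 0 := by
      rw [← mul_coeff_zero, ← hgh]; exact h0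
    have e1 : f.reverse = g.reverse * h.reverse := by rw [hgh, reverse_mul_of_domain]
    rcases hf.isUnit_or_isUnit e1 with hu | hu
    · exact Or.inl (aux g (left_ne_zero_of_mul hc0) hu)
    · exact Or.inr (aux h (right_ne_zero_of_mul hc0) hu)

theorem fs_coeff (ρ d : ℕ) {L : Type} [CommRing L] (lam : L) (n : ℕ) :
    (fs ρ d lam).coeff n = (if n = 0 then (X ^ ((1 + ρ) * d) + X - C lam : L[X]) else 0) +
      (if n = d - 1 then (1 : L[X]) else 0) + (if n = d then (X ^ d : L[X]) else 0) := by
  rw [fs]
  simp only [coeff_add, coeff_C, coeff_X_pow, coeff_C_mul, mul_ite, mul_one, mul_zero]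

theorem irr_zero (d : ℕ) (hd : 3 ≤ d) (L : Type) [Field L] (lam : L) :
    Irreducible (fs 0 d lam) := by
  have hc0 : (fs 0 d lam).coeff 0 ≠ 0 := by
    intro h
    rw [fs_coeff, if_pos rfl, if_neg (by omega), if_neg (by omega), add_zero, add_zero] at h
    have := congrArg (fun p => coeff p 1) h
    simp [coeff_X_pow, show (1 : ℕ) ≠ d by omega] at this
  have hdeg : (fs 0 d lam).natDegree = d := by
    apply natDegree_eq_of_le_of_coeff_ne_zero
    · rw [natDegree_le_iff_coeff_eq_zero]
      intro n hn
      rw [fs_coeff, if_neg (by omega), if_neg (by omega), if_neg (by omega)]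
      simp
    · rw [fs_coeff, if_neg (by omega), if_neg (by omega), if_pos rfl, zero_add, zero_add]
      exact pow_ne_zero _ X_ne_zero
  have hrev : (fs 0 d lam).reverse = Bivariate.swap (R := L)
      (C (1 + X ^ d) * X ^ d + C (X ^ d) * X + C (X - C lam * X ^ d) : L[X][X]) := by
    have e1 : (fs 0 d lam).reverse = reflect d (fs 0 d lam) := by rw [reverse, hdeg]
    rw [e1, fs]
    rw [reflect_add, reflect_add, reflect_C, reflect_monomial, reflect_C_mul_X_pow,
      revAt_le (by omega), revAt_le le_rfl]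
    have h3 : d - (d - 1) = 1 := by omega
    rw [h3]
    simp only [map_add, map_mul, map_sub, map_pow, Bivariate.swap_X, Bivariate.swap_Y,
      Bivariate.swap_C_C, map_one]
    simp only [add_zero, one_mul, Nat.sub_self, pow_zero, mul_one, pow_one]
    ring
  refine irreducible_of_reverse _ hc0 ?_
  rw [hrev]
  exact (MulEquiv.irreducible_iff (Bivariate.swap (R := L))).mpr (eis d hd L lam)

theorem irr_one (L : Type) [Field L] [CharZero L] (lam : L) : Irreducible (fs 1 2 lam) := by
  set f : L[X][Y] := fs 1 2 lam with hff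
  set a0 : L[X] := X ^ 4 + X - C lam with ha0
  have c0 : f.coeff 0 = a0 := by rw [hff, fs_coeff]; simp [ha0]
  have c1 : f.coeff 1 = 1 := by rw [hff, fs_coeff]; simp
  have c2 : f.coeff 2 = X ^ 2 := by rw [hff, fs_coeff]; simp
  have hX2 : (X ^ 2 : L[X]) ≠ 0 := pow_ne_zero _ X_ne_zero
  have hdeg : f.natDegree = 2 := by
    apply natDegree_eq_of_le_of_coeff_ne_zero
    · rw [natDegree_le_iff_coeff_eq_zero]
      intro n hn
      rw [hff, fs_coeff, if_neg (by omega), if_neg (by omega), if_neg (by omega)]
      simp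
    · rw [c2]; exact hX2
  have hf0 : f ≠ 0 := by intro h; rw [h] at hdeg; simp at hdeg
  have aux : ∀ g h : L[X][Y], f = g * h → g.natDegree = 0 → IsUnit g := by
    intro g h hgh hg
    obtain ⟨a, rfl⟩ : ∃ a, g = C a := ⟨_, eq_C_of_natDegree_eq_zero hg⟩
    have : a ∣ f.coeff 1 := by rw [hgh, coeff_C_mul]; exact dvd_mul_right _ _
    rw [c1] at this
    exact (isUnit_of_dvd_one this).map C
  constructor
  · intro hu
    have := natDegree_eq_zero_of_isUnit hu
    omega
  · intro g h hgh
    have hg0 : g ≠ 0 := by rintro rfl; exact hf0 (by rw [hgh, zero_mul])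
    have hh0 : h ≠ 0 := by rintro rfl; exact hf0 (by rw [hgh, mul_zero])
    have hsum : g.natDegree + h.natDegree = 2 := by
      rw [← natDegree_mul hg0 hh0, ← hgh, hdeg]
    rcases Nat.eq_zero_or_pos g.natDegree with h1 | h1
    · exact Or.inl (aux g h hgh h1)
    rcases Nat.eq_zero_or_pos h.natDegree with h2 | h2
    · exact Or.inr (aux h g (by rw [hgh, mul_comm]) h2)
    exfalso
    have z1 : g.coeff 2 = 0 := coeff_eq_zero_of_natDegree_lt (by omega)
    have z2 : h.coeff 2 = 0 := coeff_eq_zero_of_natDegree_lt (by omega)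
    have m0 : g.coeff 0 * h.coeff 0 = a0 := by rw [← mul_coeff_zero, ← hgh, c0]
    have m1 : g.coeff 0 * h.coeff 1 + g.coeff 1 * h.coeff 0 = 1 := by
      rw [← c1, hgh, coeff_mul]
      simp [Finset.Nat.antidiagonal_succ]
    have m2 : g.coeff 1 * h.coeff 1 = X ^ 2 := by
      rw [← c2, hgh, coeff_mul]
      simp [Finset.Nat.antidiagonal_succ, z1, z2]
    set s : L[X] := g.coeff 0 * h.coeff 1 - g.coeff 1 * h.coeff 0 with hs
    have hsq : s * s = 1 - 4 * X ^ 2 * (X ^ 4 + X - C lam) := by
      have e1 : s * s = (g.coeff 0 * h.coeff 1 + g.coeff 1 * h.coeff 0) ^ 2 -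
          4 * (g.coeff 1 * h.coeff 1) * (g.coeff 0 * h.coeff 0) := by rw [hs]; ring
      rw [e1, m1, m2, m0, ha0]
      ring
    have hexp : s * s = C 1 - C 4 * X ^ 6 - C 4 * X ^ 3 + C (4 * lam) * X ^ 2 := by
      rw [hsq]
      simp only [C_mul, C_1]
      have : (C 4 : L[X]) = 4 := rfl
      rw [this]
      ring
    have hdeg6 : (s * s).natDegree ≤ 6 := by
      rw [hexp]
      compute_degree
    have hs3 : s.natDegree ≤ 3 := by
      by_cases hs0 : s = 0
      · rw [hs0]; simp
      · rw [natDegree_mul hs0 hs0] at hdeg6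
        omega
    have zz : ∀ n, 4 ≤ n → s.coeff n = 0 := fun n hn => coeff_eq_zero_of_natDegree_lt (by omega)
    have q := fun n => congrArg (fun p => coeff p n) hexp
    have q0 := q 0
    have q3 := q 3
    have q4 := q 4
    have q5 := q 5
    have q6 := q 6
    simp [coeff_mul, Finset.Nat.antidiagonal_succ, coeff_X_pow, coeff_C, zz, coeff_one] at q0 q3 q4 q5 q6
    have n3 : s.coeff 3 ≠ 0 := by
      intro h0
      rw [h0] at q6
      norm_num at q6
    have s2 : s.coeff 2 = 0 := by
      have : s.coeff 2 * s.coeff 3 = 0 := by linear_combination q5 / 2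
      exact (mul_eq_zero.mp this).resolve_right n3
    have s1 : s.coeff 1 = 0 := by
      have : s.coeff 1 * s.coeff 3 = 0 := by rw [s2] at q4; linear_combination q4 / 2
      exact (mul_eq_zero.mp this).resolve_right n3
    rw [s1, s2] at q3
    have q3' : s.coeff 0 * s.coeff 3 = -2 := by linear_combination q3 / 2
    have : (8 : L) = 0 := by
      linear_combination q6 - (s.coeff 0 * s.coeff 3 - 2) * q3' + (s.coeff 3 * s.coeff 3) * q0
    norm_num at this

/-- IRR -/
theorem irr : IrrStmt := by
  intro ρ d L _ _ lam h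
  rcases h with ⟨rfl, hd⟩ | ⟨rfl, rfl⟩
  · exact irr_zero d hd L lam
  · exact irr_one L lam

end Pool.Agent.LDP.H68
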